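import Pool.Agent.Q216.RK.Stm2
import Pool.Agent.Q129.RK.Lists

set_option autoImplicit false

/-! Project RK, version 2: FAIR2 and STOP2 (adapted from helper129's Lists). -/

namespace Pool.Agent.Q280.RK

open Pool.Agent.Q216.RK Pool.Agent.Q129.RK

lemma admV_some {Z : Cj → Bool} {C : List Cj} {p K : Cj} (h : admV Z C p = some K) :
    K ∈ C ∧ freshB p K = true ∧ Z (p ++ K) = true := by
  unfold admV at h
  have := List.mem_of_mem_head? h
  rw [List.mem_filter] at this
  simpa using this

lemma admV_nil {Z : Cj → Bool} {C : Cj} {m : ℕ} {p : Cj} (h : Z p = true) :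
    admV Z (conjs C m) p = some [] := by
  obtain ⟨R, hR⟩ := conjs_cons C m
  unfold admV
  rw [hR, List.filter_cons_of_pos]
  · rfl
  · simp [fresh_nil, h]

theorem fair2 : S_FAIR2 := by
  intro n m Z π K h
  obtain ⟨h1, h2, -⟩ := admV_some h
  obtain ⟨h3, h4⟩ := mem_conjs.mp h1
  exact ⟨h3, h2, fun l hl => mem_lits.mp (h4 l hl)⟩

theorem stop2 : S_STOP2 := by
  intro Z C m t x h
  set A := admV Z (conjs C m) with hA
  unfold aliveB at h
  rw [List.all_eq_false] at h
  obtain ⟨s, hs, h2⟩ := h
  have hst : s < t := List.mem_range.mp hs
  cases hK : A (path A x s) with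
  | none =>
    have h3 : stp A x (path A x s) = path A x s := by unfold stp; rw [hK]
    left
    rw [path_const h3 t hst.le, hK]
  | some K =>
    rw [hK] at h2
    have h4 := admV_some hK
    by_cases hK0 : K = []
    · have h3 : stp A x (path A x s) = path A x s := by unfold stp; rw [hK, hK0]; simp
      right
      rw [path_const h3 t hst.le]
      simpa [hK0] using h4.2.2
    · have h5 : satB K x = true := by
        by_contra h6
        rw [Bool.not_eq_true] at h6
        apply h2
        simp [hK0, h6]
      have h6 : path A x (s + 1) = path A x s ++ K := by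
        rw [path_succ]
        unfold stp
        rw [hK]
        refine congrArg (fun z => path A x s ++ z) ?_
        calc K.map (fun l => (l.1, x.getD l.1 false)) = K.map id := by
              refine List.map_congr_left fun l hl => ?_
              have := satB_iff.mp h5 l hl
              simp [List.getD, this]
          _ = K := by simp
      have h7 : Z (path A x (s + 1)) = true := by rw [h6]; exact h4.2.2
      have h8 : stp A x (path A x (s + 1)) = path A x (s + 1) := by
        unfold stp
        rw [hA, admV_nil h7]
        simp
      right
      rw [path_const h8 t hst]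
      exact h7

end Pool.Agent.Q280.RK
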