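import Pool.Agent.Q216.RK.Stm

set_option autoImplicit false

namespace Pool.Agent.Q280.RK

open Pool.Agent.Q216.RK

theorem card_flatMap_le {α β : Type} [DecidableEq α] [DecidableEq β] (l : List α) (f : α → List β)
    (M : ℕ) (h : ∀ a ∈ l, (f a).toFinset.card ≤ M) :
    (l.flatMap f).toFinset.card ≤ l.toFinset.card * M := by
  have h1 : (l.flatMap f).toFinset ⊆ l.toFinset.biUnion (fun a => (f a).toFinset) := by
    intro b hb
    rw [List.mem_toFinset, List.mem_flatMap] at hb
    obtain ⟨a, ha, hb⟩ := hb
    rw [Finset.mem_biUnion]
    exact ⟨a, List.mem_toFinset.2 ha, List.mem_toFinset.2 hb⟩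
  refine (Finset.card_le_card h1).trans ?_
  exact Finset.card_biUnion_le_card_mul _ _ _ fun a ha => h a (List.mem_toFinset.1 ha)

theorem length_flatMap_const {α β : Type} (l : List α) (f : α → List β) (M : ℕ)
    (h : ∀ a ∈ l, (f a).length = M) : (l.flatMap f).length = l.length * M := by
  induction l with
  | nil => simp
  | cons a l ih =>
    rw [List.flatMap_cons, List.length_append, h a (by simp), ih (fun b hb => h b (by simp [hb])),
      List.length_cons]
    ring

theorem length_lits (n : ℕ) : (lits n).length = 2 * n := by
  unfold lits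
  rw [length_flatMap_const _ _ 2 (fun _ _ => rfl), List.length_range]
  ring

theorem length_conjs (l : Cj) (m : ℕ) : (conjs l m).length ≤ (l.length + 1) ^ m := by
  induction m with
  | zero => simp [conjs]
  | succ m ih =>
    unfold conjs
    rw [List.length_cons, length_flatMap_const _ _ l.length (fun K _ => by simp), pow_succ]
    have h1 : 1 ≤ (l.length + 1) ^ m := Nat.one_le_pow _ _ (by omega)
    nlinarith [Nat.mul_le_mul_right l.length ih]

theorem card_cds (S : Smp) (n B : ℕ) (π Q : Cj) (i : ℕ) :
    (cds S n B π Q i).toFinset.card ≤ 2 ^ B := by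
  unfold cds
  split_ifs with h
  · set L := lam S n π Q i with hL
    set b := decide (cnt S (π ++ Q ++ [(i, false)]) true < cnt S (π ++ Q ++ [(i, true)]) true)
    have h1 : (S.map (fun p => π ++ (i, b) :: L.filter (fun l => litB p.1 l))).toFinset ⊆
        (L.sublists.toFinset).image (fun s => π ++ (i, b) :: s) := by
      intro K hK
      rw [List.mem_toFinset, List.mem_map] at hK
      obtain ⟨p, _, rfl⟩ := hK
      rw [Finset.mem_image]
      refine ⟨L.filter (fun l => litB p.1 l), ?_, rfl⟩
      rw [List.mem_toFinset, List.mem_sublists]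
      exact List.filter_sublist
    refine (Finset.card_le_card h1).trans ?_
    refine Finset.card_image_le.trans ?_
    refine (List.toFinset_card_le _).trans ?_
    rw [List.length_sublists]
    exact Nat.pow_le_pow_right (by norm_num) h
  · simp

theorem ncand : S_NCAND := by
  intro S m t k B
  unfold cands
  apply card_flatMap_le
  intro π _
  refine (card_flatMap_le _ _ (dimS S * 2 ^ B) ?_).trans ?_
  · intro Q _
    refine (card_flatMap_le _ _ (2 ^ B) fun i _ => card_cds S _ B π Q i).trans ?_
    apply Nat.mul_le_mul_right
    refine (List.toFinset_card_le _).trans ?_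
    rw [List.length_range]
  · apply Nat.mul_le_mul_right
    refine (List.toFinset_card_le _).trans ?_
    refine (length_conjs _ _).trans ?_
    rw [length_lits]

end Pool.Agent.Q280.RK
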