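import Pool.Agent.Q216.RK.Stm2
import Pool.Agent.Q280.RK.Ncand

set_option autoImplicit false

namespace Pool.Agent.Q280.RK

open Pool.Agent.Q216.RK

theorem card_cdsV (v : Sta) (X : List (List Bool)) (n B : ℕ) (π Q : Cj) (i : ℕ) :
    (cdsV v X n B π Q i).toFinset.card ≤ 2 ^ B := by
  unfold cdsV
  split_ifs with h
  · set L := lamV v n π Q i with hL
    set b := decide (v (π ++ Q ++ [(i, false)]) true < v (π ++ Q ++ [(i, true)]) true)
    have h1 : (X.map (fun x => π ++ (i, b) :: L.filter (fun l => litB x l))).toFinset ⊆
        (L.sublists.toFinset).image (fun s => π ++ (i, b) :: s) := by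
      intro K hK
      rw [List.mem_toFinset, List.mem_map] at hK
      obtain ⟨p, _, rfl⟩ := hK
      rw [Finset.mem_image]
      refine ⟨L.filter (fun l => litB p l), ?_, rfl⟩
      rw [List.mem_toFinset, List.mem_sublists]
      exact List.filter_sublist
    refine (Finset.card_le_card h1).trans ?_
    refine Finset.card_image_le.trans ?_
    refine (List.toFinset_card_le _).trans ?_
    rw [List.length_sublists]
    exact Nat.pow_le_pow_right (by norm_num) h
  · simp

theorem ncand2 : S_NCAND2 := by
  intro v Z X n m t k B
  unfold candsV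
  apply card_flatMap_le
  intro π _
  refine (card_flatMap_le _ _ (n * 2 ^ B) ?_).trans ?_
  · intro Q _
    refine (card_flatMap_le _ _ (2 ^ B) fun i _ => card_cdsV v X _ B π Q i).trans ?_
    apply Nat.mul_le_mul_right
    refine (List.toFinset_card_le _).trans ?_
    rw [List.length_range]
  · apply Nat.mul_le_mul_right
    refine (List.toFinset_card_le _).trans ?_
    refine (length_conjs _ _).trans ?_
    rw [length_lits]

end Pool.Agent.Q280.RK
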