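import Pool.Agent.Q216.RK.Stm

set_option autoImplicit false

namespace Pool.Agent.Q280.RK

open Pool.Agent.Q216.RK

theorem two_pow_size {a : ℕ} (ha : 0 < a) : 2 ^ Nat.size a ≤ 2 * a := by
  have h1 : 0 < Nat.size a := Nat.size_pos.2 ha
  obtain ⟨s, hs⟩ : ∃ s, Nat.size a = s + 1 := ⟨Nat.size a - 1, by omega⟩
  have h2 : 2 ^ s ≤ a := Nat.lt_size.1 (by omega)
  rw [hs, pow_succ]
  omega

theorem num : S_NUM := by
  intro k m
  refine ⟨5 + 2 * (10 + 1 + 5 * (2 ^ m * m) + (4 * (k + 6) + 4 * k) + 2 * k + 1), ?_⟩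
  intro n e d he
  set x := n + e + d + 2 with hx
  have hx2 : 2 ≤ x := by omega
  have hx0 : 0 < x := by omega
  have h2p : ∀ j : ℕ, 2 ^ j ≤ x ^ j := fun j => Nat.pow_le_pow_left hx2 j
  have hex : e ≤ x := by omega
  -- the depth
  have h1 : 2 ^ Nat.size (8 * e) ≤ x ^ 5 := by
    refine (two_pow_size (by omega)).trans ?_
    calc 2 * (8 * e) = 2 ^ 4 * e := by ring
      _ ≤ x ^ 4 * x := Nat.mul_le_mul (h2p 4) hex
      _ = x ^ 5 := by ring
  have h2 : 2 ^ (m * tT m e) ≤ x ^ (5 * (2 ^ m * m)) := by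
    have : m * tT m e = Nat.size (8 * e) * (2 ^ m * m) := by unfold tT; ring
    rw [this, pow_mul 2 (Nat.size (8 * e)) (2 ^ m * m), pow_mul x 5 (2 ^ m * m)]
    exact Nat.pow_le_pow_left h1 _
  have hkn : k * n + 1 ≤ x ^ (k + 1) := by
    have hk : k ≤ x ^ k := (Nat.lt_two_pow_self).le.trans (h2p k)
    have h1k : 1 ≤ x ^ k := Nat.one_le_pow _ _ hx0
    calc k * n + 1 ≤ x ^ k * n + x ^ k := Nat.add_le_add (Nat.mul_le_mul_right n hk) h1k
      _ = x ^ k * (n + 1) := by ring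
      _ ≤ x ^ k * x := Nat.mul_le_mul_left _ (by omega)
      _ = x ^ (k + 1) := by ring
  have h3 : 2 ^ Nat.size (8 * (k * n + 1) * e) ≤ x ^ (k + 6) := by
    refine (two_pow_size (by positivity)).trans ?_
    calc 2 * (8 * (k * n + 1) * e) = 2 ^ 4 * (k * n + 1) * e := by ring
      _ ≤ x ^ 4 * x ^ (k + 1) * x := Nat.mul_le_mul (Nat.mul_le_mul (h2p 4) hkn) hex
      _ = x ^ (k + 6) := by ring
  have h4 : 4 ^ bB k n e ≤ x ^ (4 * (k + 6) + 4 * k) := by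
    have e1 : 4 ^ bB k n e = (2 ^ Nat.size (8 * (k * n + 1) * e)) ^ 4 * 2 ^ (4 * k) := by
      unfold bB
      have : (4:ℕ) = 2 ^ 2 := by norm_num
      rw [this, ← pow_mul, ← pow_mul, ← pow_add]
      congr 1
      ring
    rw [e1, pow_add]
    refine Nat.mul_le_mul ?_ (h2p _)
    rw [mul_comm 4 (k + 6), pow_mul]
    exact Nat.pow_le_pow_left h3 4
  have h5 : (2 * n + 1) ^ k ≤ x ^ (2 * k) := by
    rw [pow_mul]
    apply Nat.pow_le_pow_left
    calc 2 * n + 1 ≤ 2 * x := by omega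
      _ ≤ x * x := Nat.mul_le_mul_right x hx2
      _ = x ^ 2 := by ring
  have h6 : n + 1 ≤ x ^ 1 := by
    rw [pow_one]
    omega
  have h7 : 1024 ≤ x ^ 10 := by
    have := h2p 10
    norm_num at this
    exact this
  have hR : Rr k m n e ≤ x ^ (10 + 1 + 5 * (2 ^ m * m) + (4 * (k + 6) + 4 * k) + 2 * k + 1) := by
    have e1 : x ^ (10 + 1 + 5 * (2 ^ m * m) + (4 * (k + 6) + 4 * k) + 2 * k + 1) =
        x ^ 10 * x ^ 1 * x ^ (5 * (2 ^ m * m)) * x ^ (4 * (k + 6) + 4 * k) * x ^ (2 * k) * x ^ 1 := by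
      rw [← pow_add, ← pow_add, ← pow_add, ← pow_add, ← pow_add]
    unfold Rr
    rw [e1]
    exact Nat.mul_le_mul (Nat.mul_le_mul (Nat.mul_le_mul (Nat.mul_le_mul
      (Nat.mul_le_mul h7 (by rw [pow_one]; exact hex)) h2) h4) h5) h6
  have h8 : 8 * (2 * n + d + 4) ≤ x ^ 5 := by
    calc 8 * (2 * n + d + 4) ≤ 2 ^ 4 * x := by omega
      _ ≤ x ^ 4 * x := Nat.mul_le_mul_right x (h2p 4)
      _ = x ^ 5 := by ring
  rw [pow_add, pow_mul']
  exact Nat.mul_le_mul h8 (Nat.pow_le_pow_left hR 2)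

end Pool.Agent.Q280.RK
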